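import Pool.Agent.H68.Ind.Basic

/-!
The generalised nets, that is, the complete graphs `K_n` with one pendant edge at every vertex, are
not in the family for `n ≥ 6`: the generalised net of `K_{n+1}` contains `n + 1` copies of the one
of `K_n`, which is more than `(2n+2)^{2n} / (2n)^{2n} < e ^ 2`.
-/

set_option autoImplicit false

open Pool.Agent.H68.Ind

namespace Pool.Agent.Results.MP_61f483_co.GeneralizedNets

/-- The complete graph on `V` with one pendant edge at every vertex: the vertices `Sum.inl a` form
a complete graph, and `Sum.inr a` is adjacent to `Sum.inl a` only. -/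
def genNet (V : Type) : SimpleGraph (V ⊕ V) where
  Adj x y := match x, y with
    | Sum.inl a, Sum.inl b => a ≠ b
    | Sum.inl a, Sum.inr b => a = b
    | Sum.inr a, Sum.inl b => a = b
    | Sum.inr _, Sum.inr _ => False
  symm := ⟨by
    rintro (a | a) (b | b) h
    · exact fun h1 => h h1.symm
    · exact Eq.symm h
    · exact Eq.symm h
    · exact h⟩
  loopless := ⟨by
    rintro (a | a) h
    · exact h rfl
    · exact h⟩

/-- the copy which avoids `j` -/
def skip {n : ℕ} (j : Fin (n + 1)) : genNet (Fin n) ↪g genNet (Fin (n + 1)) where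
  toFun := Sum.map j.succAbove j.succAbove
  inj' := Function.Injective.sumMap Fin.succAbove_right_injective Fin.succAbove_right_injective
  map_rel_iff' := by
    rintro (a | a) (b | b)
    · exact (Fin.succAbove_right_injective (p := j)).ne_iff
    · exact (Fin.succAbove_right_injective (p := j)).eq_iff
    · exact (Fin.succAbove_right_injective (p := j)).eq_iff
    · exact Iff.rfl

theorem num {n : ℕ} (hn : 6 ≤ n) :
    (n + 1 + (n + 1)) ^ (n + n) - (n + 1 + (n + 1)) < (n + 1) * ((n + n) ^ (n + n) - (n + n)) := by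
  rcases Nat.lt_or_ge n 7 with h7 | h7
  · have : n = 6 := by omega
    subst this
    norm_num
  · have hn0 : (0 : ℝ) < (n : ℝ) := by
      have : 0 < n := by omega
      exact_mod_cast this
    have hn7 : (7 : ℝ) ≤ (n : ℝ) := by exact_mod_cast h7
    have h1 : ((n : ℝ) + 1 + (n + 1)) ^ (n + n) ≤ Real.exp 1 ^ 2 * ((n : ℝ) + n) ^ (n + n) := by
      have e1 : (n : ℝ) + 1 + (n + 1) = ((n : ℝ) + n) * (1 / (n : ℝ) + 1) := by
        field_simp
        ring
      rw [e1, mul_pow, mul_comm]
      apply mul_le_mul_of_nonneg_right _ (by positivity)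
      have e2 := Real.add_one_le_exp (1 / (n : ℝ))
      have e3 : (1 / (n : ℝ) + 1) ^ n ≤ Real.exp 1 := by
        have e4 : (1 / (n : ℝ) + 1) ^ n ≤ (Real.exp (1 / (n : ℝ))) ^ n :=
          pow_le_pow_left₀ (by positivity) e2 n
        rw [← Real.exp_nat_mul] at e4
        have e5 : (n : ℝ) * (1 / (n : ℝ)) = 1 := by field_simp
        rwa [e5] at e4
      rw [pow_add, sq]
      exact mul_le_mul e3 e3 (by positivity) (Real.exp_pos 1).le
    have h2 : Real.exp 1 ^ 2 < 7.4 := by
      have := Real.exp_one_lt_d9
      have h0 := Real.exp_pos 1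
      nlinarith
    have h3 : (100 : ℝ) * ((n : ℝ) + 1) * ((n : ℝ) + n) ≤ ((n : ℝ) + n) ^ (n + n) := by
      have e1 : 100 * (n + 1) * (n + n) ≤ (n + n) ^ (n + n) := by
        calc 100 * (n + 1) * (n + n) ≤ (n + n) ^ 2 * (n + n) * (n + n) := by
              apply Nat.mul_le_mul_right
              apply Nat.mul_le_mul
              · nlinarith
              · omega
          _ = (n + n) ^ 4 := by ring
          _ ≤ (n + n) ^ (n + n) := Nat.pow_le_pow_right (by omega) (by omega)
      exact_mod_cast e1
    have h4 : ((n : ℝ) + 1 + (n + 1)) ^ (n + n) < ((n : ℝ) + 1) * (((n : ℝ) + n) ^ (n + n) -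
        (n + n)) := by
      have h5 : (0 : ℝ) < ((n : ℝ) + n) ^ (n + n) := by positivity
      nlinarith
    have n1 : n + n ≤ (n + n) ^ (n + n) := Nat.le_self_pow (by omega) _
    have h6 : (((n + 1 + (n + 1)) ^ (n + n) : ℕ) : ℝ) <
        (((n + 1) * ((n + n) ^ (n + n) - (n + n)) : ℕ) : ℝ) := by
      rw [Nat.cast_mul, Nat.cast_sub n1]
      push_cast
      exact h4
    have h7 : (n + 1 + (n + 1)) ^ (n + n) < (n + 1) * ((n + n) ^ (n + n) - (n + n)) := by
      exact_mod_cast h6
    omega

/-- **Generalised nets are not members.** -/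
theorem result (n : ℕ) (hn : 6 ≤ n) (H : SimpleGraph (Fin (n + n)))
    (hH : Nonempty (H ≃g genNet (Fin n))) : ¬ Member H := by
  intro hM
  obtain ⟨e⟩ := hH
  have h1 := le_copies H (genNet (Fin (n + 1))) (ι := Fin (n + 1))
    (fun j => (skip j).comp e.toEmbedding) ?_
  · rw [Nat.card_eq_fintype_card, Fintype.card_fin] at h1
    have hcard : Fintype.card (Fin (n + 1) ⊕ Fin (n + 1)) = n + 1 + (n + 1) := by
      rw [Fintype.card_sum, Fintype.card_fin]
    have h2 := basic (by omega) hM (genNet (Fin (n + 1))) (by rw [hcard]; omega)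
    rw [hcard] at h2
    have h3 := (Nat.mul_le_mul_right ((n + n) ^ (n + n) - (n + n)) h1).trans h2
    exact absurd h3 (not_le.2 (num hn))
  · intro i j hij
    by_contra hne
    -- `Sum.inl j` is in the copy which avoids `i` but not in the one which avoids `j`
    obtain ⟨a, ha⟩ := Fin.exists_succAbove_eq (x := j) (y := i) (fun h => hne h.symm)
    have h1 : (Sum.inl j : Fin (n + 1) ⊕ Fin (n + 1)) ∈
        Set.range ((skip i).comp e.toEmbedding) := by
      refine ⟨e.symm (Sum.inl a), ?_⟩
      change Sum.map i.succAbove i.succAbove (e (e.symm (Sum.inl a))) = _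
      rw [e.apply_symm_apply, Sum.map_inl, ha]
    rw [hij] at h1
    obtain ⟨x, hx⟩ := h1
    change Sum.map j.succAbove j.succAbove (e x) = _ at hx
    rcases he : e x with b | b
    · rw [he, Sum.map_inl] at hx
      exact Fin.succAbove_ne j b (Sum.inl.inj hx)
    · rw [he, Sum.map_inr] at hx
      exact absurd hx (by simp)

end Pool.Agent.Results.MP_61f483_co.GeneralizedNets
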